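import Pool.Agent.R655.LI.Test

/-!
# Asphericity after deleting one 2-cell: reduction to test pairs

Definitions (`Pool.Agent.R655.LI.Defs`, `.Asph`, `.Howie`, `.Test`):

* `Cx`: a 2-complex with one vertex, 1-cells `V`, 2-cells `R`, attaching words `r : R → FreeGroup V`;
  `L.Pi` its fundamental group; `L.Contractible`: `π₁(L) = 1` and the integral boundary operator
  `C₂ → C₁` is injective; `L.IsFin`: finitely many cells; `Sub K L`: `K` is a subcomplex of `L`, `s.map`
  the induced homomorphism `π₁(K) → π₁(L)`; `L.del e` is `L` without the open 2-cell `e`;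
* `Asph K`: the boundary operator `C₂ → C₁` of the universal covering (Fox derivatives of the
  attaching words) is injective, i.e. `π₂(K) = 0`;
* `PInd p G`: every nontrivial finitely generated subgroup of `G` has a nontrivial homomorphism to
  `ℤ/p` (to `ℤ` if `p = 0`);
* `TestPair P L e`: `L` is a finite contractible 2-complex, `e` is attached along a 1-cell, and the
  commutator subgroup `N` of `π₁(L - e)` is perfect, the normal closure of one nontrivial element, and
  has no nontrivial homomorphism to a group with `PInd p`, for all `p ∈ P`;
* `InBadTestPair P K`: `K` is a subcomplex of `L' - e`, `π₁(K) → π₁(L' - e)` is injective and `L' - e` is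
  not aspherical, for some test pair `(L', e)`.
-/

set_option autoImplicit false

namespace Pool.Agent.Results.MP_75ccdc_gt.TestPairs

open Pool.Agent.R655.LI

/-- Let `P` be a finite set of primes (and `0`).  If `L` is a finite contractible 2-complex and
`L - e` is not aspherical, then `L - e` is a `π₁`-injective subcomplex of a non-aspherical `L' - e'`
with a test pair `(L', e')`.  Hence Q1 holds if and only if it holds for the test pairs. -/
theorem result (P : Finset ℕ) (hP : ∀ p ∈ P, p = 0 ∨ p.Prime) :
    (∀ (L : Cx) (e : L.R), L.Contractible → L.IsFin → ¬ Asph (L.del e) →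
      InBadTestPair P (L.del e)) ∧
    ((∀ (L : Cx) (e : L.R), L.Contractible → L.IsFin → Asph (L.del e)) ↔
      ∀ (L : Cx) (e : L.R), TestPair P L e → Asph (L.del e)) := by
  have h1 : ∀ (L : Cx) (e : L.R), L.Contractible → L.IsFin → ¬ Asph (L.del e) →
      InBadTestPair P (L.del e) := fun L e hL hf h => test P hP (L.del e) L (delSub L e) hL hf h
  refine ⟨h1, fun h L e hT => h L e hT.1.1 hT.2.1, fun h L e hL hf => ?_⟩
  by_contra hK
  obtain ⟨L', e', s, hT, _, hn⟩ := h1 L e hL hf hK
  exact hn (h L' e' hT)

end Pool.Agent.Results.MP_75ccdc_gt.TestPairs
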